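import Mathlib
import Pool.Agent.Q95.SchreierE

/-!
# MP_a61181: the quantity `wbs_ξ(B_X)` takes all values in `(0,2)` for `ξ = 1`
-/

namespace Pool.Agent.Results.MP_a61181_an.NoDichotomy

open Filter Topology

/-- The minimum of the support. -/
noncomputable def minSupp (a : ℕ →₀ ℝ) : ℕ := sInf {k | a k ≠ 0}

/-- How many terms of the sequence `b` are used by the first `n` averages: `k_1 = 0` and
`k_{n+1} = k_n + min supp b_{k_n + 1}` (here the indices start at `0`). -/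
noncomputable def start (b : ℕ → ℕ →₀ ℝ) : ℕ → ℕ
  | 0 => 0
  | n + 1 => start b n + minSupp (b (start b n))

/-- The averages of the next order: the `n`-th one is the mean of `s_n` consecutive terms of `b`,
where `s_n` is the minimum of the support of the first of them. -/
noncomputable def nextAvg (b : ℕ → ℕ →₀ ℝ) (n : ℕ) : ℕ →₀ ℝ :=
  (1 / (minSupp (b (start b n)) : ℝ)) •
    ∑ i ∈ Finset.Ico (start b n) (start b n + minSupp (b (start b n))), b i

/-- The repeated averages `ξ^M_n` for finite orders `ξ`, where `M = {m 0 < m 1 < ...}`. -/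
noncomputable def ravg (m : ℕ → ℕ) : ℕ → ℕ → ℕ →₀ ℝ
  | 0 => fun n => Finsupp.single (m n) 1
  | ξ + 1 => nextAvg (ravg m ξ)

section Defs

variable {X : Type} [NormedAddCommGroup X] [NormedSpace ℝ X]

/-- `a · (x_k) = ∑ a_k x_k`. -/
noncomputable def act (a : ℕ →₀ ℝ) (x : ℕ → X) : X := a.sum fun k c => c • x k

/-- `ca(y) = inf_n sup_{k,l ≥ n} ‖y_k - y_l‖`. -/
noncomputable def ca (y : ℕ → X) : ℝ :=
  ⨅ n : ℕ, ⨆ p : {p : ℕ × ℕ // n ≤ p.1 ∧ n ≤ p.2}, ‖y p.1.1 - y p.1.2‖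

/-- The Cesàro means. -/
noncomputable def cesaro (y : ℕ → X) (n : ℕ) : X := (1 / ((n : ℝ) + 1)) • ∑ i ∈ Finset.range (n + 1), y i

/-- `cca(y) = ca` of the Cesàro means. -/
noncomputable def cca (y : ℕ → X) : ℝ := ca (cesaro y)

/-- `inf` over the infinite sets `M` of positive integers of `cca (ξ^M_n · (x_k))_n`. -/
noncomputable def tcca (ξ : ℕ) (x : ℕ → X) : ℝ :=
  ⨅ M : {m : ℕ → ℕ // StrictMono m ∧ 0 < m 0}, cca fun n => act (ravg M.1 ξ n) x

/-- Weak convergence. -/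
def WeaklyConverges (x : ℕ → X) (l : X) : Prop :=
  ∀ f : X →L[ℝ] ℝ, Tendsto (fun k => f (x k)) atTop (𝓝 (f l))

/-- `wbs_ξ(A)`, for finite `ξ`. -/
noncomputable def wbs (ξ : ℕ) (A : Set X) : ℝ :=
  ⨆ x : {x : ℕ → X // (∀ n, x n ∈ A) ∧ ∃ l, WeaklyConverges x l}, tcca ξ x.1

end Defs

/-! ### The averages of order one -/

/-- The beginnings of the blocks. -/
def kk (m : ℕ → ℕ) : ℕ → ℕ
  | 0 => 0
  | n + 1 => kk m n + m (kk m n)

lemma minSupp_single (a : ℕ) : minSupp (Finsupp.single a 1) = a := by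
  have : {k | (Finsupp.single a (1 : ℝ)) k ≠ 0} = {a} := by
    ext k
    simp only [Set.mem_ofPred_eq, Set.mem_singleton_iff, Finsupp.single_apply]
    constructor
    · intro h
      by_contra hne
      exact h (by rw [if_neg (fun h' => hne h'.symm)])
    · rintro rfl; simp
  rw [minSupp, this, csInf_singleton]

lemma start_eq (m : ℕ → ℕ) (n : ℕ) : start (ravg m 0) n = kk m n := by
  induction n with
  | zero => rfl
  | succ n ih =>
    show start (ravg m 0) n + minSupp (Finsupp.single (m (start (ravg m 0) n)) 1) = _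
    rw [minSupp_single, ih]; rfl

lemma ravg_one (m : ℕ → ℕ) (n : ℕ) : ravg m 1 n = Q95.Sch.yy m (kk m) n := by
  show nextAvg (ravg m 0) n = _
  unfold nextAvg
  rw [start_eq]
  show (1 / (minSupp (Finsupp.single (m (kk m n)) 1) : ℝ)) •
    ∑ i ∈ Finset.Ico (kk m n) (kk m n + minSupp (Finsupp.single (m (kk m n)) 1)),
      Finsupp.single (m i) 1 = _
  rw [minSupp_single]
  rfl

section Gen

variable {X : Type} [NormedAddCommGroup X] [NormedSpace ℝ X]

lemma act_add (a b : ℕ →₀ ℝ) (x : ℕ → X) : act (a + b) x = act a x + act b x := by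
  unfold act
  exact Finsupp.sum_add_index (by simp) (by intro k _ c d; rw [add_smul])

lemma act_eq (a : ℕ →₀ ℝ) (x : ℕ → X) : act a x = Finsupp.linearCombination ℝ x a := rfl

lemma act_one (m : ℕ → ℕ) (n : ℕ) (x : ℕ → X) :
    act (ravg m 1 n) x = (1 / (m (kk m n) : ℝ)) •
      ∑ i ∈ Finset.Ico (kk m n) (kk m (n + 1)), x (m i) := by
  rw [ravg_one, act_eq, Q95.Sch.yy, map_smul, map_sum]
  congr 1
  apply Finset.sum_congr rfl
  intro i _
  simp

lemma norm_act_one_le {m : ℕ → ℕ} (hm : StrictMono m) (hm0 : 0 < m 0) (n : ℕ) {x : ℕ → X}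
    (hx : ∀ k, ‖x k‖ ≤ 1) : ‖act (ravg m 1 n) x‖ ≤ 1 := by
  have hpos : (0 : ℝ) < m (kk m n) := by
    exact_mod_cast lt_of_lt_of_le hm0 (hm.monotone (Nat.zero_le _))
  rw [act_one, norm_smul, Real.norm_eq_abs, abs_of_nonneg (by positivity), one_div,
    inv_mul_le_iff₀ hpos, mul_one]
  calc _ ≤ ∑ i ∈ Finset.Ico (kk m n) (kk m (n + 1)), ‖x (m i)‖ := norm_sum_le _ _
    _ ≤ ∑ _i ∈ Finset.Ico (kk m n) (kk m (n + 1)), (1 : ℝ) := Finset.sum_le_sum fun i _ => hx _
    _ = m (kk m n) := by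
        rw [Finset.sum_const, Nat.card_Ico, nsmul_eq_mul, mul_one]
        show ((kk m n + m (kk m n) - kk m n : ℕ) : ℝ) = _
        simp

lemma norm_cesaro_le {y : ℕ → X} (hy : ∀ k, ‖y k‖ ≤ 1) (n : ℕ) : ‖cesaro y n‖ ≤ 1 := by
  have hpos : (0 : ℝ) < (n : ℝ) + 1 := by positivity
  rw [cesaro, norm_smul, Real.norm_eq_abs, abs_of_nonneg (by positivity), one_div,
    inv_mul_le_iff₀ hpos, mul_one]
  calc _ ≤ ∑ i ∈ Finset.range (n + 1), ‖y i‖ := norm_sum_le _ _
    _ ≤ ∑ _i ∈ Finset.range (n + 1), (1 : ℝ) := Finset.sum_le_sum fun i _ => hy _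
    _ = (n : ℝ) + 1 := by rw [Finset.sum_const, Finset.card_range, nsmul_eq_mul]; simp

lemma ca_nonneg (y : ℕ → X) : 0 ≤ ca y :=
  Real.iInf_nonneg fun _ => Real.iSup_nonneg fun _ => norm_nonneg _

lemma ca_le {y : ℕ → X} {r : ℝ} (n : ℕ) (h : ∀ k l, n ≤ k → n ≤ l → ‖y k - y l‖ ≤ r) :
    ca y ≤ r := by
  refine (ciInf_le ⟨0, ?_⟩ n).trans ?_
  · rintro _ ⟨n, rfl⟩
    exact Real.iSup_nonneg fun _ => norm_nonneg _
  · haveI : Nonempty {p : ℕ × ℕ // n ≤ p.1 ∧ n ≤ p.2} := ⟨⟨(n, n), le_rfl, le_rfl⟩⟩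
    exact ciSup_le fun p => h _ _ p.2.1 p.2.2

lemma le_ca {y : ℕ → X} {r : ℝ} (hb : ∀ k, ‖y k‖ ≤ 1)
    (h : ∀ n, ∃ k l, n ≤ k ∧ n ≤ l ∧ r ≤ ‖y k - y l‖) : r ≤ ca y := by
  refine le_ciInf fun n => ?_
  obtain ⟨k, l, hk, hl, hr⟩ := h n
  refine hr.trans ?_
  refine le_ciSup (f := fun p : {p : ℕ × ℕ // n ≤ p.1 ∧ n ≤ p.2} => ‖y p.1.1 - y p.1.2‖)
    ⟨2, ?_⟩ ⟨(k, l), hk, hl⟩
  rintro _ ⟨p, rfl⟩
  have := norm_sub_le (y p.1.1) (y p.1.2)
  have h1 := hb p.1.1
  have h2 := hb p.1.2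
  simp only
  linarith

/-- The difference of two Cesàro means as one combination. -/
lemma cesaro_sub (y : ℕ → X) {p q n0 : ℕ} (hp : n0 ≤ p) (hq : n0 ≤ q) :
    ∃ (b : ℕ → ℝ) (n : ℕ), (∀ j, |b j| ≤ 1 / ((n0 : ℝ) + 1)) ∧ ∑ j ∈ Finset.range n, b j = 0 ∧
      ∑ j ∈ Finset.range n, |b j| ≤ 2 ∧
      cesaro y p - cesaro y q = ∑ j ∈ Finset.range n, b j • y j := by
  set u : ℕ → ℕ → ℝ := fun r j => if j < r + 1 then 1 / ((r : ℝ) + 1) else 0 with hu
  have hu0 : ∀ r j, 0 ≤ u r j := by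
    intro r j; simp only [hu]; split
    · positivity
    · exact le_rfl
  have hule : ∀ r j, n0 ≤ r → u r j ≤ 1 / ((n0 : ℝ) + 1) := by
    intro r j hr
    simp only [hu]; split
    · apply one_div_le_one_div_of_le (by positivity)
      have : (n0 : ℝ) ≤ r := by exact_mod_cast hr
      linarith
    · positivity
  have hsum : ∀ r n, r < n → ∑ j ∈ Finset.range n, u r j = 1 := by
    intro r n hrn
    simp only [hu]
    rw [← Finset.sum_filter]
    have : (Finset.range n).filter (fun j => j < r + 1) = Finset.range (r + 1) := by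
      ext j; simp only [Finset.mem_filter, Finset.mem_range]; omega
    rw [this, Finset.sum_const, Finset.card_range, nsmul_eq_mul]
    push_cast
    field_simp
  have hces : ∀ r n, r < n → cesaro y r = ∑ j ∈ Finset.range n, u r j • y j := by
    intro r n hrn
    have : ∀ j ∈ Finset.range n, u r j • y j
        = if j < r + 1 then (1 / ((r : ℝ) + 1)) • y j else 0 := by
      intro j _
      simp only [hu]; split
      · rfl
      · exact zero_smul _ _
    rw [Finset.sum_congr rfl this, ← Finset.sum_filter]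
    have h2 : (Finset.range n).filter (fun j => j < r + 1) = Finset.range (r + 1) := by
      ext j; simp only [Finset.mem_filter, Finset.mem_range]; omega
    rw [h2, ← Finset.smul_sum]
    rfl
  set n := p + q + 1 with hn
  refine ⟨fun j => u p j - u q j, n, fun j => ?_, ?_, ?_, ?_⟩
  · rw [abs_le]
    constructor
    · linarith [hu0 p j, hule q j hq]
    · linarith [hu0 q j, hule p j hp]
  · rw [Finset.sum_sub_distrib, hsum p n (by omega), hsum q n (by omega), sub_self]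
  · calc ∑ j ∈ Finset.range n, |u p j - u q j| ≤ ∑ j ∈ Finset.range n, (u p j + u q j) := by
          apply Finset.sum_le_sum
          intro j _
          rw [abs_le]
          constructor
          · linarith [hu0 p j]
          · linarith [hu0 q j]
      _ = 2 := by
          rw [Finset.sum_add_distrib, hsum p n (by omega), hsum q n (by omega)]; norm_num
      _ ≤ 2 := le_rfl
  · rw [hces p n (by omega), hces q n (by omega), ← Finset.sum_sub_distrib]
    apply Finset.sum_congr rfl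
    intro j _
    rw [sub_smul]

end Gen

section Main

variable (θ : Set.Ioo (0 : ℝ) 1)

lemma tcca_le {x : ℕ → Q95.Sch.XX θ} {l : Q95.Sch.XX θ} (hx : ∀ n, ‖x n‖ ≤ 1)
    (hw : WeaklyConverges x l) : tcca 1 x ≤ 2 * θ := by
  apply le_of_forall_pos_le_add
  intro δ hδ
  set ε : ℝ := min 1 (δ / 10) with hε
  have hε0 : 0 < ε := lt_min one_pos (by positivity)
  have hε1 : ε ≤ 1 := min_le_left _ _
  have hεδ : ε ≤ δ / 10 := min_le_right _ _
  obtain ⟨m, hm, hm0, hmain⟩ := Q95.Sch.upperX hw hx hε0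
  obtain ⟨n0, hn0⟩ := exists_nat_gt (6 / ε)
  refine (ciInf_le ⟨0, ?_⟩ ⟨m, hm, hm0⟩).trans ?_
  · rintro _ ⟨M, rfl⟩
    exact ca_nonneg _
  · show ca (cesaro fun n => act (ravg m 1 n) x) ≤ 2 * θ + δ
    apply ca_le n0
    intro k l' hk hl
    obtain ⟨b, n, hb, hb0, hb2, he⟩ := cesaro_sub (fun n => act (ravg m 1 n) x) hk hl
    rw [he]
    simp only [act_one]
    refine (hmain (kk m) (fun j => rfl) b _ n hb hb0 hb2).trans ?_
    have h1 : 1 / ((n0 : ℝ) + 1) ≤ ε / 6 := by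
      rw [div_le_div_iff₀ (by positivity) (by norm_num)]
      rw [div_lt_iff₀ hε0] at hn0
      linarith
    have h2 : 3 * (1 + ε) * (1 / ((n0 : ℝ) + 1)) ≤ 3 * (1 + ε) * (ε / 6) :=
      mul_le_mul_of_nonneg_left h1 (by positivity)
    have h3 := θ.2.1
    have h4 := θ.2.2
    nlinarith

/-- The unit vectors. -/
noncomputable def ee (k : ℕ) : Q95.Sch.XX θ := Q95.Sch.inc (Finsupp.single k 1)

lemma act_ee (a : ℕ →₀ ℝ) : act a (ee θ) = (Q95.Sch.inc a : Q95.Sch.XX θ) := by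
  unfold act ee
  conv_rhs => rw [← Finsupp.sum_single a]
  rw [Finsupp.sum, Finsupp.sum, map_sum]
  apply Finset.sum_congr rfl
  intro k _
  rw [← map_smul, Finsupp.smul_single, smul_eq_mul, mul_one]

lemma norm_ee_le (k : ℕ) : ‖ee θ k‖ ≤ 1 := by
  unfold ee
  rw [Q95.Sch.norm_inc]
  have key : ∀ F : Finset ℕ, ∑ i ∈ F, |(Finsupp.single k (1 : ℝ)) i| ≤ 1 := by
    intro F
    have : ∀ i, |(Finsupp.single k (1 : ℝ)) i| = if k = i then 1 else 0 := by
      intro i
      rw [Finsupp.single_apply]; split <;> simp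
    simp only [this]
    rw [Finset.sum_ite_eq]
    split <;> norm_num
  apply Q95.Sch.nrm_le
  · intro F _; exact key F
  · intro F _
    have h1 := key F
    have h2 : 0 ≤ ∑ i ∈ F, |(Finsupp.single k (1 : ℝ)) i| := Finset.sum_nonneg fun _ _ => abs_nonneg _
    have h3 := θ.2.2
    nlinarith

lemma le_tcca_ee : 2 * (θ : ℝ) ≤ tcca 1 (ee θ) := by
  haveI : Nonempty {m : ℕ → ℕ // StrictMono m ∧ 0 < m 0} :=
    ⟨⟨fun n => n + 1, fun a b h => by simpa using h, by norm_num⟩⟩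
  refine le_ciInf fun M => ?_
  obtain ⟨m, hm, hm0⟩ := M
  show 2 * (θ : ℝ) ≤ ca (cesaro fun n => act (ravg m 1 n) (ee θ))
  apply le_of_forall_pos_le_add
  intro δ hδ
  suffices h : 2 * (θ : ℝ) - δ ≤ ca (cesaro fun n => act (ravg m 1 n) (ee θ)) by linarith
  apply le_ca
  · intro k
    exact norm_cesaro_le (fun n => norm_act_one_le hm hm0 n (norm_ee_le θ)) k
  · intro n0
    obtain ⟨Q, hQ⟩ := exists_nat_gt (4 / δ)
    have hQ0 : (0 : ℝ) < Q := lt_trans (by positivity) hQ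
    obtain ⟨n, l, h1, h2, h3, h4, h5⟩ := Q95.Sch.lower' θ.2.1 θ.2.2 hm hm0 (k := kk m) rfl
      (fun _ => rfl) Q (by exact_mod_cast hQ0) (n0 + 1)
    have hces : ∀ r : ℕ, 0 < r → cesaro (fun n => act (ravg m 1 n) (ee θ)) (r - 1)
        = Q95.Sch.inc ((1 / (r : ℝ)) • ∑ j ∈ Finset.range r, Q95.Sch.yy m (kk m) j) := by
      intro r hr
      obtain ⟨r', rfl⟩ : ∃ r', r = r' + 1 := ⟨r - 1, by omega⟩
      rw [Nat.add_sub_cancel, cesaro, map_smul, map_sum]
      push_cast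
      congr 1
      apply Finset.sum_congr rfl
      intro j _
      rw [act_ee, ravg_one]
    refine ⟨n - 1, l - 1, by omega, by omega, ?_⟩
    rw [hces n h3, hces l h4, ← map_sub, Q95.Sch.norm_inc]
    refine le_trans ?_ h5
    have h6 : (4 : ℝ) / Q ≤ δ := by
      rw [div_le_iff₀ hQ0]
      rw [div_lt_iff₀ hδ] at hQ
      linarith
    have h7 := θ.2.1
    have h8 := θ.2.2
    have h9 : (θ : ℝ) * (4 / Q) ≤ δ := by
      have : (0 : ℝ) ≤ 4 / Q := by positivity
      nlinarith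
    linarith

/-- In the space `XX θ` the value is `2θ`. -/
theorem wbs_eq : wbs 1 (Metric.closedBall (0 : Q95.Sch.XX θ) 1) = 2 * θ := by
  have hb : ∀ x : {x : ℕ → Q95.Sch.XX θ //
      (∀ n, x n ∈ Metric.closedBall (0 : Q95.Sch.XX θ) 1) ∧ ∃ l, WeaklyConverges x l},
      tcca 1 x.1 ≤ 2 * θ := by
    rintro ⟨x, hx, l, hl⟩
    exact tcca_le θ (fun n => by simpa using hx n) hl
  apply le_antisymm
  · haveI : Nonempty {x : ℕ → Q95.Sch.XX θ //
        (∀ n, x n ∈ Metric.closedBall (0 : Q95.Sch.XX θ) 1) ∧ ∃ l, WeaklyConverges x l} :=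
      ⟨⟨fun _ => 0, fun _ => by simp, 0, fun f => tendsto_const_nhds⟩⟩
    exact ciSup_le hb
  · refine (le_tcca_ee θ).trans ?_
    exact le_ciSup (f := fun x : {x : ℕ → Q95.Sch.XX θ //
        (∀ n, x n ∈ Metric.closedBall (0 : Q95.Sch.XX θ) 1) ∧ ∃ l, WeaklyConverges x l} =>
        tcca 1 x.1) ⟨2 * θ, by rintro _ ⟨x, rfl⟩; exact hb x⟩
      ⟨ee θ, fun n => by simpa using norm_ee_le θ n, 0, fun f => Q95.Sch.weakly_null f⟩

end Main

/-- **The dichotomy fails.** For every `c ∈ (0,2)` there is a real Banach space `X` with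
`wbs_1(B_X) = c`. -/
theorem result : ∀ c ∈ Set.Ioo (0 : ℝ) 2,
    ∃ (X : Type) (_ : NormedAddCommGroup X) (_ : NormedSpace ℝ X) (_ : CompleteSpace X),
      wbs 1 (Metric.closedBall (0 : X) 1) = c := by
  intro c hc
  have h : c / 2 ∈ Set.Ioo (0 : ℝ) 1 := ⟨by linarith [hc.1], by linarith [hc.2]⟩
  refine ⟨Q95.Sch.XX ⟨c / 2, h⟩, inferInstance, inferInstance, inferInstance, ?_⟩
  rw [wbs_eq]
  show 2 * (c / 2) = c
  ring

end Pool.Agent.Results.MP_a61181_an.NoDichotomy
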